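import Pool.Agent.Y303.EJ.Stm

/-!
Project EJ (helper303), job NEXT: the beginning of the next stage.
-/

open Set Filter Topology MeasureTheory

set_option autoImplicit false

namespace Pool.Agent.Y25.EJ

open Pool.Agent.Y5 (Pr Pr_cont Pr_deriv Pr_mono mono_of)
open Pool.Agent.Y6.N (src ph)
open Pool.Agent.Y303.EJ

section

variable {η : ℝ} {lm L C ℓ : ℕ → ℝ} {B : ℕ → ℕ → ℝ} {T : ℝ} {x R V : ℕ → ℝ → ℝ}

lemma Rsucc_le (c : Ch η lm L C ℓ B T x R V) (n : ℕ) {t : ℝ} (ht : t ∈ Ico 0 T) :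
    R (n + 1) t ≤ R n t := by
  have h1 := c.Rsq n t ht
  have h2 := c.R0 n t ht
  have h3 := c.R0 (n + 1) t ht
  refine (pow_le_pow_iff_left₀ h3 h2 two_ne_zero).1 ?_
  nlinarith [sq_nonneg (x n t)]

lemma abs_x_le (c : Ch η lm L C ℓ B T x R V) (n : ℕ) {t : ℝ} (ht : t ∈ Ico 0 T) :
    |x n t| ≤ R n t := by
  refine abs_le_of_sq_le_sq ?_ (c.R0 n t ht)
  have h1 := c.Rsq n t ht
  nlinarith [sq_nonneg (R (n + 1) t)]

lemma R_le_one (c : Ch η lm L C ℓ B T x R V) (n : ℕ) {t : ℝ} (ht : t ∈ Ico 0 T) :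
    R n t ≤ 1 := by
  induction n with
  | zero => exact c.R1 t ht
  | succ n ih => exact (Rsucc_le c n ht).trans ih

lemma L_pos (c : Ch η lm L C ℓ B T x R V) (n : ℕ) : 0 < L n :=
  lt_of_lt_of_le one_pos (c.nm.L1 n)

lemma Th_cont' (c : Ch η lm L C ℓ B T x R V) (n : ℕ) :
    ContinuousOn (fun s => L n * R (n + 1) s) (Ico 0 T) :=
  continuousOn_const.mul (c.cR (n + 1))

lemma Th_mono (c : Ch η lm L C ℓ B T x R V) (i : ℕ) {t b : ℝ} (h0 : 0 ≤ t) (htb : t ≤ b)
    (hb : b < T) : Th L R i t ≤ Th L R i b :=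
  Pr_mono (Th_cont' c i) ⟨h0, htb.trans_lt hb⟩ ⟨h0.trans htb, hb⟩ htb (fun s hs =>
    mul_nonneg (L_pos c i).le (c.R0 (i + 1) s ⟨h0.trans hs.1.le, hs.2.trans hb⟩))

lemma His_mono (c : Ch η lm L C ℓ B T x R V) {n : ℕ} {t b : ℝ} (h0 : 0 ≤ t) (htb : t ≤ b)
    (hb : b < T) (h : His η lm L R n b) : His η lm L R n t :=
  ⟨(mul_le_mul_of_nonneg_left htb (L_pos c 0).le).trans h.time,
    fun i hi => (Th_mono c i h0 htb hb).trans (h.old i hi),
    (Th_mono c (n + 1) h0 htb hb).trans h.next⟩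

lemma Sg_abs (c : Ch η lm L C ℓ B T x R V) (k : ℕ) {t : ℝ} (ht : t ∈ Ico 0 T) :
    |Sg L x (k + 1) t| ≤ 101 / 100 * L k := by
  unfold Sg
  refine (Finset.abs_sum_le_sum_abs _ _).trans
    ((Finset.sum_le_sum fun i _ => ?_).trans (c.nm.Lsum k))
  rw [abs_mul, abs_of_nonneg (L_pos c i).le]
  exact mul_le_of_le_one_right (L_pos c i).le ((abs_x_le c i ht).trans (R_le_one c i ht))

lemma mul_exp_half {y : ℝ} (hy : 0 ≤ y) : y * Real.exp (-(y / 2)) ≤ 1 := by
  have h1 := Real.quadratic_le_exp_of_nonneg (show 0 ≤ y / 2 by positivity)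
  have h2 : y ≤ Real.exp (y / 2) := by nlinarith [sq_nonneg (y - 2)]
  rw [Real.exp_neg, ← div_eq_mul_inv]
  exact (div_le_one (Real.exp_pos _)).2 h2

/-- the arithmetic of the lower bound -/
lemma low_ar {S l0 l Lm y X r r1 tn e Cm q p sr v : ℝ} (hl : 1 ≤ l)
    (hl0 : 0 ≤ l0) (hS1 : 49 / 100 * l + l0 ≤ S) (hS2 : S ≤ 102 / 100 * l)
    (hLm : Lm = y * l) (hy : 0 ≤ y) (htn0 : 0 ≤ tn) (htn1 : tn ≤ 1) (hyt : y * tn ≤ 1)
    (hX : -tn ≤ X) (hXr : |X| ≤ r) (hr : 0 ≤ r) (hr1 : 0 ≤ r1) (hr1t : r1 ≤ tn)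
    (hsq : r ^ 2 = X ^ 2 + r1 ^ 2) (he : e ≤ 1 / 100)
    (hC : Cm ≤ 1 / 100) (hq : q ≤ 1) (hp : p ≤ tn) (hsr : 0 ≤ sr)
    (hv : |v - (S * X + sr - l0 * X - Lm * r1 ^ 2)| ≤
      e * |X| + Cm * Lm * |X| * r1 + q * r1 ^ 2 + p) :
    4 / 10 * (l * r) - 6 * l * tn ≤ v := by
  have h1 := (abs_le.1 hv).1
  have hXa : |X| ≤ X + 2 * tn := by
    rcases abs_cases X with ⟨h, _⟩ | ⟨h, _⟩ <;> rw [h] <;> linarith
  have hrr : r ≤ |X| + r1 := by
    refine (pow_le_pow_iff_left₀ hr (by positivity) two_ne_zero).1 ?_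
    have : 0 ≤ |X| * r1 := by positivity
    have h2 : |X| ^ 2 = X ^ 2 := sq_abs X
    nlinarith
  have hr1sq : r1 ^ 2 ≤ tn * tn := by
    rw [pow_two]
    exact mul_le_mul hr1t hr1t hr1 htn0
  have htt : tn * tn ≤ tn := mul_le_of_le_one_right htn0 htn1
  -- the error terms
  have e1 : e * |X| ≤ 1 / 100 * (l * r) := by
    calc e * |X| ≤ 1 / 100 * r := mul_le_mul he hXr (abs_nonneg _) (by norm_num)
      _ ≤ 1 / 100 * (l * r) := by
        have : r ≤ l * r := le_mul_of_one_le_left hr hl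
        linarith
  have e2 : Cm * Lm * |X| * r1 ≤ 1 / 100 * (l * r) := by
    have h3 : Lm * r1 ≤ l := by
      rw [hLm]
      have : y * r1 ≤ 1 := (mul_le_mul_of_nonneg_left hr1t hy).trans hyt
      nlinarith
    have h4 : 0 ≤ Lm * r1 := by
      rw [hLm]
      positivity
    calc Cm * Lm * |X| * r1 = Cm * ((Lm * r1) * |X|) := by ring
      _ ≤ 1 / 100 * (l * r) := by
        refine mul_le_mul hC (mul_le_mul h3 hXr (abs_nonneg _) (by linarith)) (by positivity)
          (by norm_num)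
  have e3 : q * r1 ^ 2 ≤ l * tn := by
    calc q * r1 ^ 2 ≤ 1 * (tn * tn) := mul_le_mul hq hr1sq (by positivity) (by norm_num)
      _ ≤ tn := by linarith
      _ ≤ l * tn := le_mul_of_one_le_left htn0 hl
  have e4 : p ≤ l * tn := hp.trans (le_mul_of_one_le_left htn0 hl)
  have e5 : Lm * r1 ^ 2 ≤ l * tn := by
    calc Lm * r1 ^ 2 ≤ Lm * (tn * tn) := by
          refine mul_le_mul_of_nonneg_left hr1sq ?_
          rw [hLm]
          positivity
      _ = l * tn * (y * tn) := by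
          rw [hLm]
          ring
      _ ≤ l * tn * 1 := mul_le_mul_of_nonneg_left hyt (by positivity)
      _ = _ := mul_one _
  -- the main term
  have e6 : 49 / 100 * l * (X + tn) ≤ (S - l0) * (X + tn) :=
    mul_le_mul_of_nonneg_right (by linarith) (by linarith)
  have e7 : (S - l0) * tn ≤ 102 / 100 * l * tn := mul_le_mul_of_nonneg_right (by linarith) htn0
  have e8 : l * r ≤ l * (X + 3 * tn) := mul_le_mul_of_nonneg_left (by linarith) (by linarith)
  have e9 : 0 ≤ l * r := by positivity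
  have e10 : 0 ≤ l * tn := by positivity
  nlinarith

/-- Task NEXT. -/
theorem t_next (c : Ch η lm L C ℓ B T x R V) (hF : FAR η lm L T R) (hN : NEG η lm L T x R) :
    NEXT η lm L T x R := by
  intro n a b ha hab hbT hHis hba hx
  have hn := c.nm
  have hsq := c.sq
  set m := n + 2 with hm
  set tn := Real.exp (-(lm m / 2)) with htn
  have hL1 := hn.L1 (n + 1)
  have hLn := hn.L1 n
  have hd0 := hn.d0 (n + 1)
  have hd1 := hn.d1 (n + 1)
  have hd0' := hn.d0 (n + 2)
  have hd1' := hn.d1 (n + 2)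
  have hlm0 : 0 < lm (n + 1) := by have := hn.lm1 (n + 1); linarith
  have hlm : 10 ^ 30 ≤ lm m := hn.lm1 m
  have hy0 : 0 ≤ lm m := by linarith
  have hLs : 10 ^ 30 * L n ≤ L (n + 1) :=
    (hn.Ls n).trans (mul_le_of_le_one_left (by linarith) (by linarith))
  have hell : 10 ^ 6 * ℓ m ≤ L (n + 1) := by
    refine (hsq.ℓ_succ (n + 1)).trans (mul_le_of_le_one_left (by linarith) ?_)
    exact pow_le_one₀ hd0'.le (by linarith)
  have hell0 := hsq.ℓ_nonneg m
  have htn0 : 0 < tn := Real.exp_pos _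
  have htn1 : tn ≤ 1 := Real.exp_le_one_iff.2 (by linarith)
  have hyt : lm m * tn ≤ 1 := mul_exp_half hy0
  have hLm : L m = lm m * L (n + 1) := (hsq.lm_succ (n + 1)).symm
  have he0 : 0 ≤ e0 lm := by unfold e0; positivity
  have he : e0 lm ≤ 1 / 100 := by
    have h1 := hn.e1
    have h2 := hn.L1 0
    have h3 := hn.lm1 0
    have h4 : e0 lm * 1 ≤ e0 lm * (L 0 + lm 0) :=
      mul_le_mul_of_nonneg_left (by linarith) he0
    have h5 : (1 : ℝ) / 10 ^ 30 ≤ 1 / 100 := by norm_num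
    linarith
  have hC : C m ≤ 1 / 100 := by
    refine (hn.C1 m).trans ?_
    rw [Real.exp_neg]
    have h1 := Real.add_one_le_exp (3 / 2 * lm m)
    rw [inv_eq_one_div]
    exact one_div_le_one_div_of_le (by norm_num) (by linarith)
  have hp : ph lm m ≤ tn := by
    unfold ph
    exact Real.exp_le_exp.2 (by linarith)
  have hq : Real.exp (-(lm (m + 1) / 2)) ≤ 1 := by
    have := hn.lm1 (m + 1)
    exact Real.exp_le_one_iff.2 (by linarith)
  have key : ∀ t ∈ Ioo a b, ∃ v, HasDerivAt (x m) v t ∧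
      4 / 10 * (L (n + 1) * R m t) - 6 * L (n + 1) * tn ≤ v := by
    intro t ht
    have htT : t ∈ Ico 0 T := ⟨ha.trans ht.1.le, ht.2.trans hbT⟩
    have hHt := His_mono c htT.1 ht.2.le hbT hHis
    obtain ⟨v, hv, hb⟩ := c.dx m t ⟨ha.trans_lt ht.1, htT.2⟩
    refine ⟨v, hv, ?_⟩
    have hS : Sg L x m t = Sg L x (n + 1) t + L (n + 1) * x (n + 1) t := by
      unfold Sg
      exact Finset.sum_range_succ _ _
    have hSa := abs_le.1 (Sg_abs c n htT)
    have hx1 := hx t ⟨ht.1.le, ht.2.le⟩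
    have hx2 : x (n + 1) t ≤ 1 :=
      (le_abs_self _).trans ((abs_x_le c (n + 1) htT).trans (R_le_one c (n + 1) htT))
    have hs : 0 ≤ src L C x m t := by
      unfold src
      rw [if_neg (by omega)]
      have := (L_pos c (m - 1)).le
      have := (hn.C0 (m - 1)).le
      positivity
    have h5 : L (n + 1) * (1 / 2) ≤ L (n + 1) * x (n + 1) t :=
      mul_le_mul_of_nonneg_left hx1 (by linarith)
    have h6 : L (n + 1) * x (n + 1) t ≤ L (n + 1) * 1 :=
      mul_le_mul_of_nonneg_left hx2 (by linarith)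
    have h7 : L n ≤ L (n + 1) / 1000 := by
      have : (0 : ℝ) < 10 ^ 30 - 1000 := by norm_num
      nlinarith
    refine low_ar (S := Sg L x m t) (l0 := ℓ m) (Lm := L m) (y := lm m) (X := x m t)
      (r1 := R (m + 1) t) (e := e0 lm) (Cm := C m) (q := Real.exp (-(lm (m + 1) / 2)))
      (p := ph lm m) (sr := src L C x m t) hL1 hell0 ?_ ?_ hLm hy0 htn0.le htn1 hyt
      (hN n t htT hHt) (abs_x_le c m htT) (c.R0 m t htT) (c.R0 (m + 1) t htT)
      (hF n t htT hHt m le_rfl).1 (c.Rsq m t htT) he hC hq hp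
      hs hb
    · rw [hS]
      linarith [hSa.1]
    · rw [hS]
      linarith [hSa.2]
  choose! v hv hvb using key
  have haT : a ∈ Ico 0 T := ⟨ha, hab.trans_lt hbT⟩
  have hsub : Icc a b ⊆ Ico 0 T := fun t ht => ⟨ha.trans ht.1, ht.2.trans_lt hbT⟩
  have hmono := mono_of (f := fun t => x m t - 4 / 10 * Th L R (n + 1) t +
      6 * L (n + 1) * tn * t)
    (f' := fun t => v t - 4 / 10 * (L (n + 1) * R m t) + 6 * L (n + 1) * tn * 1) hab
    (((c.cx m).mono hsub).sub (continuousOn_const.mul ((Pr_cont (Th_cont' c (n + 1))).mono hsub))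
      |>.add (continuousOn_const.mul continuousOn_id))
    (fun t ht => ((hv t ht).sub ((Pr_deriv (Th_cont' c (n + 1))
      ⟨ha.trans_lt ht.1, ht.2.trans hbT⟩).const_mul (4 / 10))).add
        ((hasDerivAt_id t).const_mul (6 * L (n + 1) * tn)))
    (fun t ht => by linarith [hvb t ht])
  have hxa := hN n a haT (His_mono c ha hab hbT hHis)
  have hfin : 6 * L (n + 1) * tn * (b - a) + tn ≤ Real.exp (-(lm m / 4)) := by
    have h1 : tn = Real.exp (-(lm m / 4)) * Real.exp (-(lm m / 4)) := by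
      rw [htn, ← Real.exp_add]
      congr 1
      ring
    set w := Real.exp (-(lm m / 4)) with hw
    have hw0 : 0 < w := Real.exp_pos _
    have h2 : L (n + 1) * (b - a) ≤ lm (n + 1) / dl η (n + 1) := by
      calc L (n + 1) * (b - a) ≤ L (n + 1) * (1 / (dl η (n + 1) * L n)) :=
            mul_le_mul_of_nonneg_left hba (by linarith)
        _ = lm (n + 1) / dl η (n + 1) := by
            rw [← hsq.lm_succ n]
            have : L n ≠ 0 := by linarith
            field_simp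
    have h3 : lm (n + 1) / dl η (n + 1) ≤ lm m / 10 ^ 8 := by
      rw [div_le_div_iff₀ hd0 (by norm_num)]
      have h4 := hsq.lm_grow (n + 1)
      have h5 : dl η (n + 2) ^ 4 ≤ dl η (n + 1) := by
        have h6 := hn.ds (n + 1)
        calc dl η (n + 2) ^ 4 ≤ dl η (n + 2) ^ 1 :=
              pow_le_pow_of_le_one hd0'.le (by linarith) (by norm_num)
          _ ≤ dl η (n + 1) := by
              rw [pow_one, h6]
              linarith
      have h6 : dl η (n + 2) ^ 4 * lm m ≤ dl η (n + 1) * lm m :=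
        mul_le_mul_of_nonneg_right h5 hy0
      linarith
    have h4 : (6 * (lm m / 10 ^ 8) + 1) * w ≤ 1 := by
      rw [hw, Real.exp_neg, ← div_eq_mul_inv]
      refine (div_le_one (Real.exp_pos _)).2 ?_
      have := Real.add_one_le_exp (lm m / 4)
      linarith
    calc 6 * L (n + 1) * tn * (b - a) + tn = (6 * (L (n + 1) * (b - a)) + 1) * w * w := by
          rw [h1]
          ring
      _ ≤ (6 * (lm m / 10 ^ 8) + 1) * w * w := by
          gcongr
          exact h2.trans h3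
      _ ≤ 1 * w := by gcongr
      _ = w := one_mul _
  linarith

end

theorem t_NEXT : S_NEXT := fun _ _ _ _ _ _ _ _ _ _ c hF hN => t_next c hF hN

end Pool.Agent.Y25.EJ
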